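import Mathlib

/-!
Variance of Lipschitz functions on the cube, and a spreading property of large subsets.
-/

namespace Pool.Agent.Q107.BK

open Finset

abbrev Cube (n : ℕ) : Type := Fin n → Bool

theorem ham_cons {n : ℕ} (b b' : Bool) (g g' : Cube n) :
    hammingDist (Fin.cons b g : Cube (n + 1)) (Fin.cons b' g') =
      (if b ≠ b' then 1 else 0) + hammingDist g g' := by
  unfold hammingDist
  rw [Fin.card_filter_univ_succ]
  simp only [Fin.cons_zero, Fin.cons_succ, Function.comp_apply]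
  split_ifs <;> omega

theorem sum_cons {n : ℕ} (F : Cube (n + 1) → ℝ) :
    ∑ x, F x = (∑ g : Cube n, F (Fin.cons true g)) + ∑ g : Cube n, F (Fin.cons false g) := by
  rw [← (Fin.consEquiv (fun _ => Bool)).sum_comp F, Fintype.sum_prod_type, Fintype.sum_bool]
  rfl

def Lip {n : ℕ} (f : Cube n → ℝ) : Prop := ∀ x y, f x - f y ≤ (hammingDist x y : ℝ)

theorem variance : ∀ (n : ℕ) (f : Cube n → ℝ), Lip f →
    (2 : ℝ) ^ n * ∑ x, f x ^ 2 - (∑ x, f x) ^ 2 ≤ n / 4 * 4 ^ n := by
  intro n
  induction n with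
  | zero =>
    intro f _
    simp
  | succ n ih =>
    intro f hf
    have h0 : Lip (fun g : Cube n => f (Fin.cons true g)) := by
      intro x y
      have := hf (Fin.cons true x) (Fin.cons true y)
      rw [ham_cons] at this
      simpa using this
    have h1 : Lip (fun g : Cube n => f (Fin.cons false g)) := by
      intro x y
      have := hf (Fin.cons false x) (Fin.cons false y)
      rw [ham_cons] at this
      simpa using this
    have i0 := ih _ h0
    have i1 := ih _ h1
    rw [sum_cons f, sum_cons (fun x => f x ^ 2)]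
    set s0 := ∑ g : Cube n, f (Fin.cons true g) with hs0
    set s1 := ∑ g : Cube n, f (Fin.cons false g) with hs1
    have hcard : (Fintype.card (Cube n) : ℝ) = 2 ^ n := by
      simp
    have hd1 : s0 - s1 ≤ 2 ^ n := by
      rw [hs0, hs1, ← Finset.sum_sub_distrib, ← hcard, ← Finset.card_univ, ← nsmul_one]
      apply Finset.sum_le_card_nsmul
      intro g _
      have := hf (Fin.cons true g) (Fin.cons false g)
      rw [ham_cons] at this
      simpa using this
    have hd2 : s1 - s0 ≤ 2 ^ n := by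
      rw [hs0, hs1, ← Finset.sum_sub_distrib, ← hcard, ← Finset.card_univ, ← nsmul_one]
      apply Finset.sum_le_card_nsmul
      intro g _
      have := hf (Fin.cons false g) (Fin.cons true g)
      rw [ham_cons] at this
      simpa using this
    have h4 : (4 : ℝ) ^ n = 2 ^ n * 2 ^ n := by
      rw [← mul_pow]
      norm_num
    have hp : (0 : ℝ) < 2 ^ n := by positivity
    have hsq : (s0 - s1) ^ 2 ≤ 2 ^ n * 2 ^ n := by
      nlinarith
    rw [pow_succ (4 : ℝ) n, pow_succ (2 : ℝ) n]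
    push_cast
    rw [h4] at i0 i1 ⊢
    nlinarith

theorem double_sum {n : ℕ} (f : Cube n → ℝ) :
    ∑ x, ∑ y, (f x - f y) ^ 2 = 2 * ((2 : ℝ) ^ n * ∑ x, f x ^ 2 - (∑ x, f x) ^ 2) := by
  have hcard : (Fintype.card (Cube n) : ℝ) = 2 ^ n := by
    simp
  have h1 : ∀ x : Cube n, ∑ y, (f x - f y) ^ 2 =
      2 ^ n * f x ^ 2 - 2 * f x * ∑ y, f y + ∑ y, f y ^ 2 := by
    intro x
    have : ∀ y : Cube n, (f x - f y) ^ 2 = f x ^ 2 - 2 * f x * f y + f y ^ 2 := fun y => by ring
    simp only [this]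
    rw [Finset.sum_add_distrib, Finset.sum_sub_distrib, Finset.sum_const, Finset.card_univ,
      nsmul_eq_mul, hcard, ← Finset.mul_sum]
  simp only [h1]
  rw [Finset.sum_add_distrib, Finset.sum_sub_distrib, Finset.sum_const, Finset.card_univ,
    nsmul_eq_mul, hcard, ← Finset.mul_sum, ← Finset.sum_mul, ← Finset.mul_sum]
  ring

/-- Two sets of points of the cube at mutual distance more than `r`. -/
theorem far_sets {n r : ℕ} (A B : Finset (Cube n)) (h : ∀ x ∈ A, ∀ y ∈ B, r < hammingDist x y) :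
    4 * ((A.card : ℝ) * B.card * r ^ 2) ≤ n * (2 ^ n * 2 ^ n) := by
  classical
  rcases A.eq_empty_or_nonempty with hA | hA
  · rw [hA]
    simp only [Finset.card_empty, Nat.cast_zero, zero_mul, mul_zero]
    positivity
  set g : Cube n → ℕ := fun x => A.inf' hA (fun a => hammingDist x a) with hg
  set f : Cube n → ℝ := fun x => (g x : ℝ) with hf
  have hlip : Lip f := by
    intro x y
    obtain ⟨a, ha, hya⟩ := Finset.exists_mem_eq_inf' hA (fun a => hammingDist y a)
    have h1 : g x ≤ hammingDist x a := Finset.inf'_le _ ha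
    have h2 : g y = hammingDist y a := hya
    have h3 := hammingDist_triangle x y a
    have h4 : g x ≤ g y + hammingDist x y := by omega
    have h5 : (g x : ℝ) ≤ g y + hammingDist x y := by exact_mod_cast h4
    simp only [hf]
    linarith
  have hA0 : ∀ x ∈ A, f x = 0 := by
    intro x hx
    have : g x ≤ hammingDist x x := Finset.inf'_le _ hx
    rw [hammingDist_self] at this
    simp only [hf]
    exact_mod_cast Nat.le_zero.mp this
  have hB0 : ∀ y ∈ B, (r : ℝ) ≤ f y := by
    intro y hy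
    obtain ⟨a, ha, hya⟩ := Finset.exists_mem_eq_inf' hA (fun a => hammingDist y a)
    have h2 : g y = hammingDist y a := hya
    have h3 := h a ha y hy
    rw [hammingDist_comm] at h3
    have h4 : r ≤ g y := by omega
    simp only [hf]
    exact_mod_cast h4
  have hv := variance n f hlip
  have hds := double_sum f
  have h4 : (4 : ℝ) ^ n = 2 ^ n * 2 ^ n := by
    rw [← mul_pow]
    norm_num
  rw [h4] at hv
  -- lower bound for the double sum
  have hpair : ∀ x ∈ A, ∀ y ∈ B, (r : ℝ) ^ 2 ≤ (f x - f y) ^ 2 := by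
    intro x hx y hy
    rw [hA0 x hx]
    have := hB0 y hy
    have h0 : (0 : ℝ) ≤ r := Nat.cast_nonneg r
    nlinarith
  have hlow1 : (A.card : ℝ) * B.card * r ^ 2 ≤ ∑ x ∈ A, ∑ y ∈ B, (f x - f y) ^ 2 := by
    have : ∀ x ∈ A, (B.card : ℝ) * r ^ 2 ≤ ∑ y ∈ B, (f x - f y) ^ 2 := by
      intro x hx
      rw [← nsmul_eq_mul]
      exact Finset.card_nsmul_le_sum _ _ _ (fun y hy => hpair x hx y hy)
    have h2 := Finset.card_nsmul_le_sum A _ _ this
    rw [nsmul_eq_mul] at h2
    linarith
  have hAB : Disjoint A B := by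
    rw [Finset.disjoint_left]
    intro x hx hx2
    have := h x hx x hx2
    rw [hammingDist_self] at this
    omega
  have hlow2 : (∑ x ∈ A, ∑ y ∈ B, (f x - f y) ^ 2) + (∑ x ∈ B, ∑ y ∈ A, (f x - f y) ^ 2) ≤
      ∑ x, ∑ y, (f x - f y) ^ 2 := by
    have e1 : ∑ x ∈ A, ∑ y ∈ B, (f x - f y) ^ 2 ≤ ∑ x ∈ A, ∑ y, (f x - f y) ^ 2 := by
      apply Finset.sum_le_sum
      intro x _
      exact Finset.sum_le_univ_sum_of_nonneg (fun y => sq_nonneg _)
    have e2 : ∑ x ∈ B, ∑ y ∈ A, (f x - f y) ^ 2 ≤ ∑ x ∈ B, ∑ y, (f x - f y) ^ 2 := by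
      apply Finset.sum_le_sum
      intro x _
      exact Finset.sum_le_univ_sum_of_nonneg (fun y => sq_nonneg _)
    have e3 : (∑ x ∈ A, ∑ y, (f x - f y) ^ 2) + ∑ x ∈ B, ∑ y, (f x - f y) ^ 2 ≤
        ∑ x, ∑ y, (f x - f y) ^ 2 := by
      rw [← Finset.sum_union hAB]
      exact Finset.sum_le_univ_sum_of_nonneg (fun x => Finset.sum_nonneg (fun y _ => sq_nonneg _))
    linarith
  have hsym : ∑ x ∈ B, ∑ y ∈ A, (f x - f y) ^ 2 = ∑ x ∈ A, ∑ y ∈ B, (f x - f y) ^ 2 := by
    rw [Finset.sum_comm]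
    apply Finset.sum_congr rfl
    intro x _
    apply Finset.sum_congr rfl
    intro y _
    ring
  rw [hsym] at hlow2
  nlinarith

end Pool.Agent.Q107.BK
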