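import Pool.Agent.Q107.BK.Graph

/-!
The Stepmother beats GREEDY on the graph `GG N n r`.
-/

namespace Pool.Agent.Q107.BK

open Finset
open scoped Classical

theorem exists_play {V : Type*} [Fintype V] [DecidableEq V] (G : SimpleGraph V) {p : V → ℝ}
    (hp : IsPour p) :
    ∃ (y : ℕ → V → ℝ) (I : ℕ → Finset V), (∀ s, IsPour (y s)) ∧
      (∀ s, IsGreedy G (content y I s + y s) (I s)) := by
  refine ⟨fun _ => p, fun s => gch G (cont G (fun _ => 0) p s + p), fun _ => hp, ?_⟩
  have key : ∀ s, content (fun _ => p) (fun s => gch G (cont G (fun _ => 0) p s + p)) s =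
      cont G (fun _ => 0) p s := by
    intro s
    induction s with
    | zero => rfl
    | succ s ih =>
      show emptied (content (fun _ => p) _ s + p) _ = _
      rw [ih]
      rfl
  intro s
  rw [key]
  exact gch_spec G _

variable {N n r e : ℕ}

noncomputable def hh (N n : ℕ) (t : ℕ) : ℝ := ∑ s ∈ range t, 1 / (((N - s : ℕ) : ℝ) * 2 ^ n)

theorem hh_nonneg (N n t : ℕ) : 0 ≤ hh N n t := by
  unfold hh
  apply Finset.sum_nonneg
  intro s _
  positivity

theorem hh_succ (N n t : ℕ) : hh N n (t + 1) = hh N n t + 1 / (((N - t : ℕ) : ℝ) * 2 ^ n) := by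
  unfold hh
  rw [Finset.sum_range_succ]

noncomputable def good (x : VV N n → ℝ) (h : ℝ) (i : Fin N) : Finset (Cube n) :=
  univ.filter (fun z => h ≤ x (some (i, z)))

theorem alive_step (hN : 0 < N) (he : 2 ^ n < 4 * N * e) (hr : 4 * n * N ^ 2 ≤ r ^ 2)
    (hn : 0 < n) {I : Finset (VV N n)} (hI : Indep (GG N n r) I) {A : Finset (Fin N)}
    (hA : A.Nonempty) (c x : VV N n → ℝ) (h h' : ℝ)
    (hx : ∀ i ∈ A, ∀ z, h ≤ c (some (i, z)) → h' ≤ x (some (i, z))) :
    ∃ j ∈ A, ∀ i ∈ A.erase j, (good c h i).card ≤ (good (emptied x I) h' i).card + e := by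
  have hcard : ∀ i ∈ A, (good c h i).card ≤ (good (emptied x I) h' i).card + (tr I i).card := by
    intro i hi
    have hsub : good c h i ⊆ good (emptied x I) h' i ∪ tr I i := by
      intro z hz
      unfold good at hz ⊢
      unfold tr
      rw [Finset.mem_union, Finset.mem_filter, Finset.mem_filter]
      rw [Finset.mem_filter] at hz
      by_cases hm : some (i, z) ∈ I
      · exact Or.inr ⟨Finset.mem_univ _, hm⟩
      · left
        refine ⟨Finset.mem_univ _, ?_⟩
        unfold emptied
        rw [if_neg hm]
        exact hx i hi z hz.2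
    exact (Finset.card_le_card hsub).trans (Finset.card_union_le _ _)
  by_cases hex : ∃ j ∈ A, e ≤ (tr I j).card
  · obtain ⟨j, hj, hje⟩ := hex
    refine ⟨j, hj, ?_⟩
    intro i hi
    rw [Finset.mem_erase] at hi
    have h1 := spread hN he hr hn hI hi.1
    have h2 := hcard i hi.2
    omega
  · push Not at hex
    obtain ⟨j, hj⟩ := hA
    refine ⟨j, hj, ?_⟩
    intro i hi
    have hi' := Finset.mem_of_mem_erase hi
    have h1 := hcard i hi'
    have h2 := hex i hi'
    omega

noncomputable def pnone : VV N n → ℝ
  | none => 1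
  | some _ => 0

theorem pnone_pour : IsPour (pnone : VV N n → ℝ) := by
  constructor
  · intro v
    cases v with
    | none => exact zero_le_one
    | some a => exact le_refl _
  · rw [Fintype.sum_option]
    simp [pnone]

noncomputable def pA (A : Finset (Fin N)) (c : ℝ) : VV N n → ℝ
  | none => 0
  | some a => if a.1 ∈ A then c else 0

theorem pA_some (A : Finset (Fin N)) (c : ℝ) (a : Fin N × Cube n) :
    pA A c (some a) = if a.1 ∈ A then c else 0 := rfl

theorem pA_none (A : Finset (Fin N)) (c : ℝ) : (pA A c : VV N n → ℝ) none = 0 := rfl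

theorem pA_pour (A : Finset (Fin N)) (hA : 0 < A.card) :
    IsPour (pA A (1 / ((A.card : ℝ) * 2 ^ n)) : VV N n → ℝ) := by
  constructor
  · intro v
    cases v with
    | none => exact le_refl _
    | some a =>
      rw [pA_some]
      split_ifs
      · positivity
      · exact le_refl _
  · rw [Fintype.sum_option, Fintype.sum_prod_type]
    have hc : (0 : ℝ) < A.card := by exact_mod_cast hA
    have h1 : ∀ i : Fin N, ∑ z : Cube n, pA A (1 / ((A.card : ℝ) * 2 ^ n)) (some (i, z)) =
        if i ∈ A then 1 / (A.card : ℝ) else 0 := by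
      intro i
      simp only [pA_some]
      split_ifs with hi
      · rw [Finset.sum_const, Finset.card_univ, nsmul_eq_mul]
        have : (Fintype.card (Cube n) : ℝ) = 2 ^ n := by simp
        rw [this]
        field_simp
      · exact Finset.sum_const_zero
    simp only [h1]
    rw [Finset.sum_ite_mem, Finset.univ_inter, Finset.sum_const, nsmul_eq_mul, pA_none]
    field_simp
    simp

theorem phase1 (hN : 0 < N) (he : 2 ^ n < 4 * N * e) (hr : 4 * n * N ^ 2 ≤ r ^ 2)
    (hn : 0 < n) : ∀ t : ℕ, t ≤ N → ∃ (y : ℕ → VV N n → ℝ) (I : ℕ → Finset (VV N n)),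
      (∀ s, IsPour (y s)) ∧ (∀ s, IsGreedy (GG N n r) (content y I s + y s) (I s)) ∧
      ∃ A : Finset (Fin N), A.card = N - t ∧
        ∀ i ∈ A, 2 ^ n ≤ (good (content y I t) (hh N n t) i).card + t * e := by
  intro t
  induction t with
  | zero =>
    intro _
    obtain ⟨y, I, hy, hI⟩ := exists_play (GG N n r) (pnone_pour (N := N) (n := n))
    refine ⟨y, I, hy, hI, Finset.univ, by simp, ?_⟩
    intro i _
    have : good (content y I 0) (hh N n 0) i = univ := by
      unfold good hh
      rw [Finset.filter_true_of_mem]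
      intro z _
      simp [content]
    rw [this, Finset.card_univ]
    simp
  | succ t ih =>
    intro ht
    obtain ⟨y, I, hy, hI, A, hA, hgood⟩ := ih (by omega)
    have hApos : 0 < A.card := by omega
    obtain ⟨y', I', hy', hI', hc, hp⟩ := modify (GG N n r) hy hI t (pA_pour (n := n) A hApos)
    have hstep := alive_step hN he hr hn (hI' t).1 (Finset.card_pos.mp hApos) (content y' I' t)
      (content y' I' t + y' t) (hh N n t) (hh N n (t + 1)) (by
        intro i hi z hz
        show _ ≤ content y' I' t (some (i, z)) + y' t (some (i, z))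
        rw [hp, hh_succ]
        have : (pA A (1 / ((A.card : ℝ) * 2 ^ n)) : VV N n → ℝ) (some (i, z)) =
            1 / (((N - t : ℕ) : ℝ) * 2 ^ n) := by
          rw [pA_some, if_pos hi, hA]
        rw [this]
        linarith)
    obtain ⟨j, hj, hcard⟩ := hstep
    refine ⟨y', I', hy', hI', A.erase j, ?_, ?_⟩
    · rw [Finset.card_erase_of_mem hj, hA]
      omega
    · intro i hi
      have h1 := hgood i (Finset.mem_of_mem_erase hi)
      have h2 := hcard i hi
      rw [hc] at h2
      have h3 : content y' I' (t + 1) = emptied (content y' I' t + y' t) (I' t) := rfl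
      rw [h3, hc]
      have h4 : (t + 1) * e = t * e + e := by ring
      omega

theorem phase2 (hN : 0 < N) (he : 2 ^ n < 4 * N * e) (hr : 4 * n * N ^ 2 ≤ r ^ 2)
    (hn : 0 < n) {k : ℕ} (hk : k ≤ N) {b0 : ℝ} (h2 : 2 * N * e ≤ 2 ^ n)
    (hsum : b0 < 2 ^ n / 2 * hh N n (N - k)) (hw : GreedyWins (GG N n r) b0) :
    ∀ s : ℕ, s ≤ k → ∃ (y : ℕ → VV N n → ℝ) (I : ℕ → Finset (VV N n)),
      (∀ s, IsPour (y s)) ∧ (∀ s, IsGreedy (GG N n r) (content y I s + y s) (I s)) ∧
      ∃ A : Finset (Fin N), A.card = k - s ∧ (s : ℝ) ≤ content y I (N - k + s) none ∧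
        ∀ i ∈ A, 2 ^ n ≤ (good (content y I (N - k + s)) (hh N n (N - k)) i).card +
          (N - k + s) * e := by
  intro s
  induction s with
  | zero =>
    intro _
    obtain ⟨y, I, hy, hI, A, hA, hgood⟩ := phase1 hN he hr hn (N - k) (by omega)
    refine ⟨y, I, hy, hI, A, by omega, ?_, ?_⟩
    · push_cast
      exact content_nonneg (fun t v => (hy t).1 v) _ _
    · intro i hi
      rw [Nat.add_zero]
      exact hgood i hi
  | succ s ih =>
    intro hs
    obtain ⟨y, I, hy, hI, A, hA, hnone, hgood⟩ := ih (by omega)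
    have hApos : 0 < A.card := by omega
    set t := N - k + s with ht
    obtain ⟨y', I', hy', hI', hc, hp⟩ := modify (GG N n r) hy hI t (pnone_pour (N := N) (n := n))
    have hx0 : ∀ v, 0 ≤ (content y' I' t + y' t) v := fun v =>
      add_nonneg (content_nonneg (fun t v => (hy' t).1 v) _ _) ((hy' t).1 v)
    have hxnone : (s : ℝ) + 1 ≤ (content y' I' t + y' t) none := by
      show _ ≤ content y' I' t none + y' t none
      rw [hp, hc]
      show _ ≤ _ + (1 : ℝ)
      linarith
    have hb := hw y' I' hy' hI' t none
    -- the vertex `none` is not emptied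
    have hnot : (none : VV N n) ∉ I' t := by
      intro hmem
      have hsing : I' t = {none} := by
        ext v
        rw [Finset.mem_singleton]
        constructor
        · intro hv
          cases v with
          | none => rfl
          | some a => exact absurd trivial ((hI' t).1 none hmem (some a) hv)
        · rintro rfl
          exact hmem
      obtain ⟨i, hi⟩ := Finset.card_pos.mp hApos
      set J : Finset (VV N n) := (good (content y' I' t) (hh N n (N - k)) i).image
        (fun z => some (i, z)) with hJ
      have hJind : Indep (GG N n r) J := by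
        intro u hu v hv hadj
        rw [hJ, Finset.mem_image] at hu hv
        obtain ⟨z, _, rfl⟩ := hu
        obtain ⟨w, _, rfl⟩ := hv
        exact hadj.1 rfl
      have hle := (hI' t).2 J hJind
      rw [hsing, Finset.sum_singleton] at hle
      have hJsum : ((good (content y' I' t) (hh N n (N - k)) i).card : ℝ) * hh N n (N - k) ≤
          ∑ v ∈ J, (content y' I' t + y' t) v := by
        rw [hJ, Finset.sum_image (by
          intro z _ w _ h
          exact (Prod.mk.inj (Option.some.inj h)).2)]
        rw [← nsmul_eq_mul]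
        apply Finset.card_nsmul_le_sum
        intro z hz
        unfold good at hz
        rw [Finset.mem_filter] at hz
        show _ ≤ content y' I' t (some (i, z)) + y' t (some (i, z))
        have := (hy' t).1 (some (i, z))
        linarith [hz.2]
      have hg := hgood i hi
      rw [← hc] at hg
      set c0 := (good (content y' I' t) (hh N n (N - k)) i).card with hc0
      have htN : t * e ≤ N * e := Nat.mul_le_mul_right e (by omega)
      have h3 : 2 ^ n ≤ 2 * c0 := by
        have : 2 * N * e = 2 * (N * e) := by ring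
        omega
      have h3' : (2 : ℝ) ^ n ≤ 2 * c0 := by exact_mod_cast h3
      have hh0 := hh_nonneg N n (N - k)
      have h5 : (2 : ℝ) ^ n / 2 * hh N n (N - k) ≤ c0 * hh N n (N - k) := by
        apply mul_le_mul_of_nonneg_right _ hh0
        linarith
      have h6 : (content y' I' t + y' t) none ≤ b0 := hb
      linarith
    have hstep := alive_step hN he hr hn (hI' t).1 (Finset.card_pos.mp hApos) (content y' I' t)
      (content y' I' t + y' t) (hh N n (N - k)) (hh N n (N - k)) (by
        intro i hi z hz
        show _ ≤ content y' I' t (some (i, z)) + y' t (some (i, z))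
        have := (hy' t).1 (some (i, z))
        linarith)
    obtain ⟨j, hj, hcard⟩ := hstep
    have e1 : N - k + (s + 1) = t + 1 := by omega
    have h3 : content y' I' (t + 1) = emptied (content y' I' t + y' t) (I' t) := rfl
    refine ⟨y', I', hy', hI', A.erase j, ?_, ?_, ?_⟩
    · rw [Finset.card_erase_of_mem hj, hA]
      omega
    · rw [e1, h3]
      unfold emptied
      rw [if_neg hnot]
      push_cast
      exact hxnone
    · intro i hi
      have g1 := hgood i (Finset.mem_of_mem_erase hi)
      have g2 := hcard i hi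
      rw [e1, h3]
      rw [← hc] at g1
      have h4 : (t + 1) * e = t * e + e := by ring
      omega

/-- The Stepmother wins against GREEDY. -/
theorem not_greedyWins (hN : 0 < N) (he : 2 ^ n < 4 * N * e) (hr : 4 * n * N ^ 2 ≤ r ^ 2)
    (hn : 0 < n) {k : ℕ} (hk : k ≤ N) {b0 : ℝ} (h2 : 2 * N * e ≤ 2 ^ n) (hbk : b0 < k)
    (hsum : b0 < 2 ^ n / 2 * hh N n (N - k)) : ¬ GreedyWins (GG N n r) b0 := by
  intro hw
  obtain ⟨y, I, hy, hI, A, hA, hnone, _⟩ := phase2 hN he hr hn hk h2 hsum hw k le_rfl
  have h1 := hw y I hy hI (N - k + k) none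
  have h3 := (hy (N - k + k)).1 none
  linarith

end Pool.Agent.Q107.BK
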