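import Pool.Agent.Q107.BK.Strat
import Pool.Agent.Q107.BK.Greedy

/-!
The gap between the greedy and the optimal bucket number is unbounded.
-/

namespace Pool.Agent.Q107.BK

open Finset

theorem hh_lower (N n k : ℕ) (hk : k ≤ N) :
    (∑ i ∈ range N, 1 / ((i : ℝ) + 1)) - k ≤ 2 ^ n * hh N n (N - k) := by
  have h1 : (2 : ℝ) ^ n * hh N n (N - k) = ∑ s ∈ range (N - k), 1 / ((N - s : ℕ) : ℝ) := by
    unfold hh
    rw [Finset.mul_sum]
    apply Finset.sum_congr rfl
    intro s hs
    rw [Finset.mem_range] at hs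
    have h0 : (0 : ℝ) < ((N - s : ℕ) : ℝ) := by
      have : 0 < N - s := by omega
      exact_mod_cast this
    have hp : (0 : ℝ) < 2 ^ n := by positivity
    field_simp
  have h2 : (∑ i ∈ range N, 1 / ((i : ℝ) + 1)) = ∑ s ∈ range N, 1 / ((N - s : ℕ) : ℝ) := by
    rw [← Finset.sum_range_reflect]
    apply Finset.sum_congr rfl
    intro s hs
    rw [Finset.mem_range] at hs
    congr 1
    have : N - s = N - 1 - s + 1 := by omega
    rw [this]
    push_cast
    ring
  have h3 : ∑ s ∈ range N, 1 / ((N - s : ℕ) : ℝ) =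
      ∑ s ∈ range (N - k), 1 / ((N - s : ℕ) : ℝ) +
        ∑ s ∈ range k, 1 / ((N - (N - k + s) : ℕ) : ℝ) := by
    rw [← Finset.sum_range_add (fun s => 1 / ((N - s : ℕ) : ℝ)) (N - k) k]
    congr 2
    omega
  have h4 : ∑ s ∈ range k, 1 / ((N - (N - k + s) : ℕ) : ℝ) ≤ k := by
    have := Finset.sum_le_card_nsmul (range k) (fun s => 1 / ((N - (N - k + s) : ℕ) : ℝ)) 1 (by
      intro s hs
      rw [Finset.mem_range] at hs
      have h0 : (1 : ℝ) ≤ ((N - (N - k + s) : ℕ) : ℝ) := by
        have : 1 ≤ N - (N - k + s) := by omega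
        exact_mod_cast this
      show 1 / ((N - (N - k + s) : ℕ) : ℝ) ≤ 1
      rw [div_le_one (by linarith)]
      exact h0)
    rwa [Finset.card_range, nsmul_eq_mul, mul_one] at this
  rw [h1, h2, h3]
  linarith

theorem greedyWins_mono {V : Type*} [Fintype V] [DecidableEq V] (G : SimpleGraph V) {b b' : ℝ}
    (hb : b ≤ b') (h : GreedyWins G b) : GreedyWins G b' :=
  fun y I hy hI t v => (h y I hy hI t v).trans hb

theorem gap (C : ℝ) : ∃ N n r : ℕ, bucket (GG N n r) ≤ 5 ∧ C < gbucket (GG N n r) := by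
  set b0 : ℝ := max C 0 + 8 with hb0
  have hb8 : 8 ≤ b0 := by
    have := le_max_right C 0
    linarith
  have hbC : C + 8 ≤ b0 := by
    have := le_max_left C 0
    linarith
  set k : ℕ := ⌈b0⌉₊ + 1 with hk
  have hbk : b0 < k := by
    have := Nat.le_ceil b0
    rw [hk]
    push_cast
    linarith
  obtain ⟨N, hNk, hharm⟩ : ∃ N : ℕ, k + 1 ≤ N ∧
      2 * b0 + k < ∑ i ∈ range N, 1 / ((i : ℝ) + 1) := by
    have ht := Real.tendsto_sum_range_one_div_nat_succ_atTop
    have h1 := ht.eventually_gt_atTop (2 * b0 + k)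
    have h2 := Filter.eventually_ge_atTop (k + 1)
    obtain ⟨N, hN⟩ := (h2.and h1).exists
    exact ⟨N, hN.1, hN.2⟩
  have hN : 0 < N := by omega
  set r := 70 * N ^ 4 with hr
  set n := 16 * N ^ 2 * r + 1 with hn
  set e := 2 ^ n / (2 * N) with he
  refine ⟨N, n, r, ?_⟩
  have hN1 : 1 ≤ N := hN
  have hn0 : 0 < n := by omega
  have hs1 : r * (4 * N) ^ 2 < n := by
    have : r * (4 * N) ^ 2 = 16 * N ^ 2 * r := by ring
    omega
  have hs2 : 4 * n * N ^ 2 ≤ r ^ 2 := by
    have e1 : 4 * n * N ^ 2 = 4480 * N ^ 8 + 4 * N ^ 2 := by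
      rw [hn, hr]
      ring
    have e2 : r ^ 2 = 4900 * N ^ 8 := by
      rw [hr]
      ring
    have e3 : N ^ 2 ≤ N ^ 8 := Nat.pow_le_pow_right hN1 (by norm_num)
    omega
  have hs3 : 2 * N * e ≤ 2 ^ n := by
    rw [he]
    exact Nat.mul_div_le _ _
  have hs4 : 2 ^ n < 4 * N * e := by
    have h1 : 2 * N ≤ 2 ^ n := by
      have h2 : n < 2 ^ n := Nat.lt_two_pow_self
      have h3 : 2 * N ≤ n := by
        rw [hn, hr]
        have : N ≤ N ^ 2 * N ^ 4 := by
          calc N = N ^ 1 := (pow_one N).symm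
            _ ≤ N ^ 6 := Nat.pow_le_pow_right hN1 (by norm_num)
            _ = N ^ 2 * N ^ 4 := by ring
        have h5 : 16 * N ^ 2 * (70 * N ^ 4) = 1120 * (N ^ 2 * N ^ 4) := by ring
        omega
      omega
    have h2 : 1 ≤ e := by
      rw [he]
      rw [Nat.one_le_div_iff (by omega)]
      exact h1
    have h3 : 2 ^ n < 2 * N * (e + 1) := by
      rw [he]
      exact Nat.lt_mul_div_succ _ (by omega)
    have h4 : 2 * N ≤ 2 * N * e := Nat.le_mul_of_pos_right _ h2
    have h5 : 2 * N * (e + 1) = 2 * N * e + 2 * N := by ring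
    have h6 : 4 * N * e = 2 * N * e + 2 * N * e := by ring
    omega
  have hbound : bucket' (GG N n r) ≤ 6 := by
    apply csInf_le
    · exact ⟨0, fun b hb => hb.1.le⟩
    · exact ⟨by norm_num, canWin_six hN hs1⟩
  have hlow : b0 ≤ gbucket' (GG N n r) := by
    apply le_csInf
    · refine ⟨Fintype.card (VV N n), ?_, greedyWins_card (GG N n r)⟩
      exact_mod_cast Fintype.card_pos
    · intro b hb
      by_contra hcon
      push Not at hcon
      have hg := greedyWins_mono _ hcon.le hb.2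
      refine not_greedyWins hN hs4 hs2 hn0 (by omega) hs3 hbk ?_ hg
      have := hh_lower N n k (by omega)
      linarith
  unfold gbucket bucket
  constructor <;> linarith

end Pool.Agent.Q107.BK
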