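import Mathlib

/-!
The bucket game on a graph.
-/

namespace Pool.Agent.Q107.BK

open Finset

variable {V : Type*} [Fintype V] [DecidableEq V]

/-- One unit of water, distributed over the buckets. -/
def IsPour (y : V → ℝ) : Prop := (∀ v, 0 ≤ y v) ∧ ∑ v, y v = 1

/-- `I` is an independent set. -/
def Indep (G : SimpleGraph V) (I : Finset V) : Prop := ∀ u ∈ I, ∀ v ∈ I, ¬ G.Adj u v

/-- The contents after emptying the buckets in `I`. -/
def emptied (x : V → ℝ) (I : Finset V) : V → ℝ := fun v => if v ∈ I then 0 else x v

/-- The contents at the start of round `t` if the Stepmother adds `y s` and Cinderella empties `I s`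
in round `s` (for `s = 0, 1, 2, ...`). -/
def content (y : ℕ → V → ℝ) (I : ℕ → Finset V) : ℕ → V → ℝ
  | 0 => fun _ => 0
  | t + 1 => emptied (content y I t + y t) (I t)

/-- Cinderella has a strategy (a function of the Stepmother's moves so far) that avoids an overflow
of buckets of capacity `b` forever. -/
def CanWin (G : SimpleGraph V) (b : ℝ) : Prop :=
  ∃ σ : (t : ℕ) → (Fin (t + 1) → V → ℝ) → Finset V,
    (∀ t h, Indep G (σ t h)) ∧
    ∀ y : ℕ → V → ℝ, (∀ t, IsPour (y t)) →
      ∀ t v, content y (fun s => σ s (fun i => y i)) t v + y t v ≤ b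

/-- `bucket'(G)` -/
noncomputable def bucket' (G : SimpleGraph V) : ℝ := sInf {b | 0 < b ∧ CanWin G b}

/-- `bucket(G)` -/
noncomputable def bucket (G : SimpleGraph V) : ℝ := bucket' G - 1

/-- `I` is an independent set of maximal total content, for the contents `x`. -/
def IsGreedy (G : SimpleGraph V) (x : V → ℝ) (I : Finset V) : Prop :=
  Indep G I ∧ ∀ J : Finset V, Indep G J → ∑ v ∈ J, x v ≤ ∑ v ∈ I, x v

/-- Playing GREEDY avoids an overflow of buckets of capacity `b` forever, against all moves of the
Stepmother and all ways to break ties. -/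
def GreedyWins (G : SimpleGraph V) (b : ℝ) : Prop :=
  ∀ (y : ℕ → V → ℝ) (I : ℕ → Finset V), (∀ t, IsPour (y t)) →
    (∀ t, IsGreedy G (content y I t + y t) (I t)) → ∀ t v, content y I t v + y t v ≤ b

/-- `g-bucket'(G)` -/
noncomputable def gbucket' (G : SimpleGraph V) : ℝ := sInf {b | 0 < b ∧ GreedyWins G b}

/-- `g-bucket(G)` -/
noncomputable def gbucket (G : SimpleGraph V) : ℝ := gbucket' G - 1

omit [Fintype V] in
theorem content_congr {y y' : ℕ → V → ℝ} {I I' : ℕ → Finset V} : ∀ t : ℕ,
    (∀ s < t, y s = y' s) → (∀ s < t, I s = I' s) → content y I t = content y' I' t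
  | 0, _, _ => rfl
  | t + 1, h1, h2 => by
    have h := content_congr t (fun s hs => h1 s (by omega)) (fun s hs => h2 s (by omega))
    show emptied (content y I t + y t) (I t) = emptied (content y' I' t + y' t) (I' t)
    rw [h, h1 t (by omega), h2 t (by omega)]

omit [Fintype V] in
theorem content_nonneg {y : ℕ → V → ℝ} {I : ℕ → Finset V} (hy : ∀ t v, 0 ≤ y t v) :
    ∀ t v, 0 ≤ content y I t v
  | 0, _ => le_refl _
  | t + 1, v => by
    show 0 ≤ emptied (content y I t + y t) (I t) v
    unfold emptied
    split_ifs
    · exact le_refl _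
    · exact add_nonneg (content_nonneg hy t v) (hy t v)

omit [DecidableEq V] in
theorem exists_greedy (G : SimpleGraph V) (x : V → ℝ) : ∃ I, IsGreedy G x I := by
  classical
  have hne : (univ.filter (fun I : Finset V => Indep G I)).Nonempty := by
    refine ⟨∅, ?_⟩
    rw [Finset.mem_filter]
    refine ⟨Finset.mem_univ _, ?_⟩
    intro u hu
    exact absurd hu (Finset.notMem_empty u)
  obtain ⟨I, hI, hmax⟩ := Finset.exists_max_image _ (fun I : Finset V => ∑ v ∈ I, x v) hne
  rw [Finset.mem_filter] at hI
  exact ⟨I, hI.2, fun J hJ => hmax J (Finset.mem_filter.mpr ⟨Finset.mem_univ _, hJ⟩)⟩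

noncomputable def gch (G : SimpleGraph V) (x : V → ℝ) : Finset V := (exists_greedy G x).choose

theorem gch_spec (G : SimpleGraph V) (x : V → ℝ) : IsGreedy G x (gch G x) :=
  (exists_greedy G x).choose_spec

noncomputable def cont (G : SimpleGraph V) (c p : V → ℝ) : ℕ → V → ℝ
  | 0 => c
  | k + 1 => emptied (cont G c p k + p) (gch G (cont G c p k + p))

/-- A greedy play can be changed from round `t` on, with a prescribed move of the Stepmother. -/
theorem modify (G : SimpleGraph V) {y : ℕ → V → ℝ} {I : ℕ → Finset V} (hy : ∀ t, IsPour (y t))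
    (hI : ∀ t, IsGreedy G (content y I t + y t) (I t)) (t : ℕ) {p : V → ℝ} (hp : IsPour p) :
    ∃ (y' : ℕ → V → ℝ) (I' : ℕ → Finset V), (∀ s, IsPour (y' s)) ∧
      (∀ s, IsGreedy G (content y' I' s + y' s) (I' s)) ∧
      content y' I' t = content y I t ∧ y' t = p := by
  classical
  set st := cont G (content y I t) p with hst
  set y' : ℕ → V → ℝ := fun s => if s < t then y s else p with hy'
  set I' : ℕ → Finset V := fun s => if s < t then I s else gch G (st (s - t) + p) with hI'
  have ya : ∀ s, s < t → y' s = y s := fun s hs => by simp only [hy', if_pos hs]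
  have Ia : ∀ s, s < t → I' s = I s := fun s hs => by simp only [hI', if_pos hs]
  have yb : ∀ k, y' (t + k) = p := fun k => by
    simp only [hy']
    rw [if_neg (by omega)]
  have Ib : ∀ k, I' (t + k) = gch G (st k + p) := fun k => by
    simp only [hI']
    rw [if_neg (by omega)]
    congr 3
    omega
  have key : ∀ k, content y' I' (t + k) = st k := by
    intro k
    induction k with
    | zero => exact content_congr t ya Ia
    | succ k ih =>
      show emptied (content y' I' (t + k) + y' (t + k)) (I' (t + k)) = _
      rw [ih, yb, Ib]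
      rfl
  refine ⟨y', I', ?_, ?_, key 0, yb 0⟩
  · intro s
    by_cases hs : s < t
    · rw [ya s hs]
      exact hy s
    · obtain ⟨k, rfl⟩ := Nat.exists_eq_add_of_le (not_lt.mp hs)
      rw [yb]
      exact hp
  · intro s
    by_cases hs : s < t
    · rw [ya s hs, Ia s hs, content_congr s (fun q hq => ya q (by omega))
        (fun q hq => Ia q (by omega))]
      exact hI s
    · obtain ⟨k, rfl⟩ := Nat.exists_eq_add_of_le (not_lt.mp hs)
      rw [yb, Ib, key]
      exact gch_spec G _

/-- Total content never exceeds the number of vertices under GREEDY. -/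
theorem greedyWins_card (G : SimpleGraph V) [Nonempty V] :
    GreedyWins G (Fintype.card V) := by
  classical
  intro y I hy hI
  have hc1 : (1 : ℝ) ≤ Fintype.card V := by
    exact_mod_cast Fintype.card_pos
  have hn : ∀ t v, 0 ≤ content y I t v := content_nonneg (fun t v => (hy t).1 v)
  have key : ∀ t, ∑ v, content y I t v ≤ Fintype.card V - 1 := by
    intro t
    induction t with
    | zero =>
      show ∑ v : V, (0 : ℝ) ≤ _
      simp only [Finset.sum_const_zero]
      linarith
    | succ t ih =>
      set x := content y I t + y t with hx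
      have hx0 : ∀ v, 0 ≤ x v := fun v => add_nonneg (hn t v) ((hy t).1 v)
      have hsx : ∑ v, x v ≤ Fintype.card V := by
        have : ∑ v, x v = ∑ v, content y I t v + ∑ v, y t v := by
          rw [← Finset.sum_add_distrib]
          rfl
        rw [this, (hy t).2]
        linarith
      have h1 : ∑ v, content y I (t + 1) v = ∑ v, x v - ∑ v ∈ I t, x v := by
        have e : ∀ v, content y I (t + 1) v = x v - (if v ∈ I t then x v else 0) := by
          intro v
          show emptied x (I t) v = _
          unfold emptied
          split_ifs <;> ring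
        simp only [e]
        rw [Finset.sum_sub_distrib, Finset.sum_ite_mem, Finset.univ_inter]
      have h2 : ∀ v, x v ≤ ∑ v ∈ I t, x v := by
        intro v
        have := (hI t).2 {v} (by
          intro u hu w hw
          rw [Finset.mem_singleton] at hu hw
          rw [hu, hw]
          exact G.loopless.irrefl v)
        rwa [Finset.sum_singleton] at this
      have h3 : ∑ v, x v ≤ Fintype.card V * ∑ v ∈ I t, x v := by
        have := Finset.sum_le_card_nsmul Finset.univ x _ (fun v _ => h2 v)
        rwa [Finset.card_univ, nsmul_eq_mul] at this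
      rw [h1]
      set W := ∑ v, x v
      set w := ∑ v ∈ I t, x v
      have hw : W / Fintype.card V ≤ w := by
        rw [div_le_iff₀ (by linarith)]
        linarith
      have hW : W - W / Fintype.card V ≤ Fintype.card V - 1 := by
        have : W - W / Fintype.card V = W * (1 - 1 / Fintype.card V) := by ring
        rw [this]
        have h5 : (0 : ℝ) ≤ 1 - 1 / Fintype.card V := by
          rw [sub_nonneg, div_le_one (by linarith)]
          exact hc1
        calc W * (1 - 1 / Fintype.card V) ≤ Fintype.card V * (1 - 1 / Fintype.card V) :=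
              mul_le_mul_of_nonneg_right hsx h5
          _ = Fintype.card V - 1 := by
              field_simp
      linarith
  intro t v
  have h1 : content y I t v ≤ ∑ v, content y I t v :=
    Finset.single_le_sum (fun v _ => hn t v) (Finset.mem_univ v)
  have h2 : y t v ≤ ∑ v, y t v :=
    Finset.single_le_sum (fun v _ => (hy t).1 v) (Finset.mem_univ v)
  rw [(hy t).2] at h2
  have := key t
  linarith

/-- contents under a rule depending on the round and the present contents -/
def cF (F : ℕ → (V → ℝ) → Finset V) (y : ℕ → V → ℝ) : ℕ → V → ℝ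
  | 0 => fun _ => 0
  | t + 1 => emptied (cF F y t + y t) (F t (cF F y t + y t))

omit [Fintype V] in
theorem cF_congr (F : ℕ → (V → ℝ) → Finset V) {y y' : ℕ → V → ℝ} : ∀ t : ℕ,
    (∀ s < t, y s = y' s) → cF F y t = cF F y' t
  | 0, _ => rfl
  | t + 1, h1 => by
    have h := cF_congr F t (fun s hs => h1 s (by omega))
    show emptied (cF F y t + y t) (F t (cF F y t + y t)) =
      emptied (cF F y' t + y' t) (F t (cF F y' t + y' t))
    rw [h, h1 t (by omega)]

theorem canWin_of_rule (G : SimpleGraph V) (b : ℝ) (F : ℕ → (V → ℝ) → Finset V)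
    (hF : ∀ t x, Indep G (F t x))
    (h : ∀ y : ℕ → V → ℝ, (∀ t, IsPour (y t)) → ∀ t v, cF F y t v + y t v ≤ b) :
    CanWin G b := by
  classical
  let ext : (t : ℕ) → (Fin (t + 1) → V → ℝ) → ℕ → V → ℝ :=
    fun t h s => if hs : s < t + 1 then h ⟨s, hs⟩ else 0
  refine ⟨fun t h => F t (cF F (ext t h) t + ext t h t), fun t h => hF t _, ?_⟩
  intro y hy
  have e1 : ∀ t s, s < t + 1 → ext t (fun i => y i) s = y s := by
    intro t s hs
    simp only [ext, dif_pos hs]
  have key : ∀ t, content y (fun s => F s (cF F (ext s (fun i => y i)) s +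
      ext s (fun i => y i) s)) t = cF F y t := by
    intro t
    induction t with
    | zero => rfl
    | succ t ih =>
      show emptied (content y _ t + y t) _ = emptied (cF F y t + y t) (F t (cF F y t + y t))
      rw [ih]
      beta_reduce
      rw [e1 t t (by omega), cF_congr F t (fun s hs => e1 t s (by omega))]
  intro t v
  have := h y hy t v
  rw [← key t] at this
  exact this

end Pool.Agent.Q107.BK
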