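import Pool.Agent.Q107.BK.Cube
import Pool.Agent.Q107.BK.Game

/-!
The graph: `N` copies of the cube, with nearly antipodal points of different copies adjacent, and one
further vertex adjacent to all others.
-/

namespace Pool.Agent.Q107.BK

open Finset

abbrev VV (N n : ℕ) : Type := Option (Fin N × Cube n)

/-- the number of coordinates in which two points of the cube agree -/
def agree {n : ℕ} (x y : Cube n) : ℕ := (univ.filter (fun l => x l = y l)).card

theorem agree_comm {n : ℕ} (x y : Cube n) : agree x y = agree y x := by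
  unfold agree
  congr 1
  ext l
  simp only [Finset.mem_filter, Finset.mem_univ, true_and]
  exact eq_comm

def adj {N n : ℕ} (r : ℕ) : VV N n → VV N n → Prop
  | none, none => False
  | none, some _ => True
  | some _, none => True
  | some a, some b => a.1 ≠ b.1 ∧ agree a.2 b.2 ≤ r

theorem adj_symm {N n : ℕ} (r : ℕ) : ∀ u v : VV N n, adj r u v → adj r v u
  | none, none, h => h
  | none, some _, _ => trivial
  | some _, none, _ => trivial
  | some a, some b, h => ⟨h.1.symm, by rw [agree_comm]; exact h.2⟩

def GG (N n r : ℕ) : SimpleGraph (VV N n) where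
  Adj u v := adj r u v
  symm := ⟨fun u v h => adj_symm r u v h⟩
  loopless := ⟨fun u h => by
    cases u with
    | none => exact h
    | some a => exact h.1 rfl⟩

def flipc {n : ℕ} (x : Cube n) : Cube n := fun l => !(x l)

theorem flipc_inj {n : ℕ} : Function.Injective (flipc : Cube n → Cube n) := by
  intro x y h
  funext l
  have := congrFun h l
  simpa [flipc] using this

theorem ham_flip {n : ℕ} (x y : Cube n) : hammingDist x (flipc y) = agree x y := by
  unfold hammingDist agree flipc
  congr 1
  ext l
  simp only [Finset.mem_filter, Finset.mem_univ, true_and]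
  cases x l <;> cases y l <;> simp

/-- the trace of a set of vertices on the copy `i` -/
def tr {N n : ℕ} (I : Finset (VV N n)) (i : Fin N) : Finset (Cube n) :=
  univ.filter (fun z => some (i, z) ∈ I)

/-- An independent set is large in at most one copy. -/
theorem spread {N n r e : ℕ} (hN : 0 < N) (he : 2 ^ n < 4 * N * e) (hr : 4 * n * N ^ 2 ≤ r ^ 2)
    (hn : 0 < n) {I : Finset (VV N n)} (hI : Indep (GG N n r) I) {i j : Fin N} (hij : i ≠ j) :
    (tr I i).card < e ∨ (tr I j).card < e := by
  by_contra hcon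
  push Not at hcon
  obtain ⟨h1, h2⟩ := hcon
  have hfar : ∀ x ∈ tr I i, ∀ y ∈ (tr I j).image flipc, r < hammingDist x y := by
    intro x hx y hy
    rw [Finset.mem_image] at hy
    obtain ⟨z, hz, rfl⟩ := hy
    rw [ham_flip]
    unfold tr at hx hz
    rw [Finset.mem_filter] at hx hz
    have hna := hI _ hx.2 _ hz.2
    by_contra hle
    exact hna ⟨hij, not_lt.mp hle⟩
  have hf := far_sets _ _ hfar
  rw [Finset.card_image_of_injective _ flipc_inj] at hf
  have e0 : 0 < e := by
    rcases Nat.eq_zero_or_pos e with h | h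
    · rw [h] at he
      simp at he
    · exact h
  have hN' : (0 : ℝ) < N := by exact_mod_cast hN
  have he' : (0 : ℝ) < e := by exact_mod_cast e0
  have hn' : (0 : ℝ) < n := by exact_mod_cast hn
  have h1' : (e : ℝ) ≤ (tr I i).card := by exact_mod_cast h1
  have h2' : (e : ℝ) ≤ (tr I j).card := by exact_mod_cast h2
  have hM : (2 : ℝ) ^ n < 4 * N * e := by exact_mod_cast he
  have hr' : 4 * (n : ℝ) * N ^ 2 ≤ r ^ 2 := by exact_mod_cast hr
  have hp : (0 : ℝ) < 2 ^ n := by positivity
  have hMM : (2 : ℝ) ^ n * 2 ^ n < (4 * N * e) * (4 * N * e) := by nlinarith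
  have hee : (e : ℝ) * e ≤ (tr I i).card * (tr I j).card := by nlinarith
  have hlow : 4 * ((e : ℝ) * e * r ^ 2) ≤ 4 * (((tr I i).card : ℝ) * (tr I j).card * r ^ 2) := by
    have : (0 : ℝ) ≤ (r : ℝ) ^ 2 := by positivity
    nlinarith
  have hlow2 : 4 * ((e : ℝ) * e * (4 * (n : ℝ) * N ^ 2)) ≤ 4 * ((e : ℝ) * e * r ^ 2) := by
    have : (0 : ℝ) < (e : ℝ) * e := by positivity
    nlinarith
  have hup : (n : ℝ) * (2 ^ n * 2 ^ n) < n * ((4 * N * e) * (4 * N * e)) :=
    mul_lt_mul_of_pos_left hMM hn'
  nlinarith

/-- A small set of points has a coordinate in which all adjacent pairs differ. -/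
theorem split_coord {N n r K : ℕ} (hn : r * K ^ 2 < n) (S : Finset (Fin N × Cube n))
    (hS : S.card ≤ K) : ∃ l : Fin n, ∀ a ∈ S, ∀ b ∈ S, (GG N n r).Adj (some a) (some b) →
      a.2 l ≠ b.2 l := by
  classical
  set P := (S ×ˢ S).filter (fun p => (GG N n r).Adj (some p.1) (some p.2)) with hP
  set B := P.biUnion (fun p => univ.filter (fun l => p.1.2 l = p.2.2 l)) with hB
  have hcard : B.card ≤ r * K ^ 2 := by
    have h1 : B.card ≤ ∑ p ∈ P, (univ.filter (fun l => p.1.2 l = p.2.2 l)).card :=
      Finset.card_biUnion_le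
    have h2 : ∑ p ∈ P, (univ.filter (fun l => p.1.2 l = p.2.2 l)).card ≤ P.card * r := by
      rw [← smul_eq_mul]
      apply Finset.sum_le_card_nsmul
      intro p hp
      rw [hP, Finset.mem_filter] at hp
      exact hp.2.2
    have h3 : P.card ≤ K * K := by
      calc P.card ≤ (S ×ˢ S).card := Finset.card_filter_le _ _
        _ = S.card * S.card := Finset.card_product _ _
        _ ≤ K * K := Nat.mul_le_mul hS hS
    calc B.card ≤ P.card * r := h1.trans h2
      _ ≤ (K * K) * r := Nat.mul_le_mul_right r h3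
      _ = r * K ^ 2 := by ring
  have hex : ∃ l : Fin n, l ∉ B := by
    by_contra hcon
    push Not at hcon
    have : B = univ := by
      ext l
      simp only [Finset.mem_univ, iff_true]
      exact hcon l
    rw [this, Finset.card_univ, Fintype.card_fin] at hcard
    omega
  obtain ⟨l, hl⟩ := hex
  refine ⟨l, ?_⟩
  intro a ha b hb hab heq
  apply hl
  rw [hB, Finset.mem_biUnion]
  refine ⟨(a, b), ?_, ?_⟩
  · rw [hP, Finset.mem_filter, Finset.mem_product]
    exact ⟨⟨ha, hb⟩, hab⟩
  · rw [Finset.mem_filter]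
    exact ⟨Finset.mem_univ _, heq⟩

end Pool.Agent.Q107.BK
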