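import Pool.Agent.Q107.BK.Graph

/-!
Cinderella keeps all contents at most `6` on the graph `GG N n r`.
-/

namespace Pool.Agent.Q107.BK

open Finset
open scoped Classical

variable {N n r : ℕ}

noncomputable def part (x : VV N n → ℝ) (i : Fin N) : ℝ := ∑ z : Cube n, x (some (i, z))

noncomputable def Wt (x : VV N n → ℝ) : ℝ := ∑ a : Fin N × Cube n, x (some a)

theorem Wt_eq (x : VV N n → ℝ) : Wt x = ∑ i, part x i := by
  unfold Wt part
  rw [Fintype.sum_prod_type]

theorem exists_best (hN : 0 < N) (x : VV N n → ℝ) : ∃ i : Fin N, ∀ j, part x j ≤ part x i := by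
  haveI : Nonempty (Fin N) := ⟨⟨0, hN⟩⟩
  obtain ⟨i, _, hi⟩ := Finset.exists_max_image Finset.univ (fun i => part x i)
    Finset.univ_nonempty
  exact ⟨i, fun j => hi j (Finset.mem_univ _)⟩

noncomputable def copyS (i : Fin N) : Finset (VV N n) :=
  univ.filter (fun v => ∃ z, v = some (i, z))

def Split (x : VV N n → ℝ) (r : ℕ) (l : Fin n) : Prop :=
  ∀ a b : Fin N × Cube n, 1 ≤ x (some a) → 1 ≤ x (some b) →
    (GG N n r).Adj (some a) (some b) → a.2 l ≠ b.2 l

noncomputable def heavy2 (x : VV N n → ℝ) : Finset (VV N n) :=
  univ.filter (fun v => ∃ a, v = some a ∧ 2 ≤ x v)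

noncomputable def half (x : VV N n → ℝ) (l : Fin n) : Finset (VV N n) :=
  univ.filter (fun v => ∃ a : Fin N × Cube n, v = some a ∧ 1 ≤ x v ∧ a.2 l = true)

/-- Cinderella's rule. -/
noncomputable def rule (r : ℕ) (hN : 0 < N) (t : ℕ) (x : VV N n → ℝ) : Finset (VV N n) :=
  if t % 4 = 0 then copyS (exists_best hN x).choose
  else if t % 4 = 1 then {none}
  else if t % 4 = 2 then (if h : ∃ l, Split x r l then half x h.choose else ∅)
  else (if Indep (GG N n r) (heavy2 x) then heavy2 x else ∅)

theorem indep_empty : Indep (GG N n r) ∅ := fun u hu => absurd hu (Finset.notMem_empty u)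

theorem rule_indep (hN : 0 < N) (t : ℕ) (x : VV N n → ℝ) : Indep (GG N n r) (rule r hN t x) := by
  unfold rule
  split_ifs with h0 h1 h2 h3 h4
  · intro u hu v hv hadj
    unfold copyS at hu hv
    rw [Finset.mem_filter] at hu hv
    obtain ⟨_, z, rfl⟩ := hu
    obtain ⟨_, w, rfl⟩ := hv
    exact hadj.1 rfl
  · intro u hu v hv hadj
    rw [Finset.mem_singleton] at hu hv
    rw [hu, hv] at hadj
    exact hadj
  · intro u hu v hv hadj
    unfold half at hu hv
    rw [Finset.mem_filter] at hu hv
    obtain ⟨_, a, rfl, ha1, ha2⟩ := hu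
    obtain ⟨_, b, rfl, hb1, hb2⟩ := hv
    apply h3.choose_spec a b ha1 hb1 hadj
    rw [ha2, hb2]
  · exact indep_empty
  · exact h4
  · exact indep_empty

theorem emptied_le (x : VV N n → ℝ) (hx : ∀ v, 0 ≤ x v) (I : Finset (VV N n)) (v : VV N n) :
    emptied x I v ≤ x v := by
  unfold emptied
  split_ifs
  · exact hx v
  · exact le_refl _

theorem emptied_nonneg (x : VV N n → ℝ) (hx : ∀ v, 0 ≤ x v) (I : Finset (VV N n)) (v : VV N n) :
    0 ≤ emptied x I v := by
  unfold emptied
  split_ifs
  · exact le_refl _
  · exact hx v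

theorem Wt_emptied_le (x : VV N n → ℝ) (hx : ∀ v, 0 ≤ x v) (I : Finset (VV N n)) :
    Wt (emptied x I) ≤ Wt x := by
  unfold Wt
  exact Finset.sum_le_sum (fun a _ => emptied_le x hx I _)

theorem Wt_copy (x : VV N n → ℝ) (i : Fin N) :
    Wt (emptied x (copyS i)) = Wt x - part x i := by
  rw [Wt_eq, Wt_eq]
  have h : ∀ j, part (emptied x (copyS i)) j = part x j - (if j = i then part x j else 0) := by
    intro j
    unfold part emptied copyS
    by_cases hj : j = i
    · rw [if_pos hj]
      rw [sub_self]
      apply Finset.sum_eq_zero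
      intro z _
      rw [if_pos]
      rw [Finset.mem_filter]
      exact ⟨Finset.mem_univ _, z, by rw [hj]⟩
    · rw [if_neg hj, sub_zero]
      apply Finset.sum_congr rfl
      intro z _
      rw [if_neg]
      rw [Finset.mem_filter]
      rintro ⟨_, w, hw⟩
      exact hj (Prod.mk.inj (Option.some.inj hw)).1
  simp only [h]
  rw [Finset.sum_sub_distrib]
  simp

structure Inv (r : ℕ) (m : ℕ) (c : VV N n → ℝ) : Prop where
  nn : ∀ v, 0 ≤ c v
  i0 : m = 0 → Wt c ≤ 4 * N - 1 ∧ (∀ a, c (some a) ≤ 2) ∧ c none ≤ 2
  i1 : m = 1 → Wt c ≤ 4 * N - 4 ∧ (∀ a, c (some a) ≤ 3) ∧ c none ≤ 3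
  i2 : m = 2 → Wt c ≤ 4 * N - 3 ∧ (∀ a, c (some a) ≤ 4) ∧ c none ≤ 0
  i3 : m = 3 → Wt c ≤ 4 * N - 2 ∧ (∀ a, c (some a) ≤ 5) ∧ c none ≤ 1 ∧
    ∀ a b, 1 ≤ c (some a) → 1 ≤ c (some b) → ¬ (GG N n r).Adj (some a) (some b)

theorem inv_zero (hN : 0 < N) : Inv (N := N) (n := n) r 0 (fun _ => 0) := by
  have hN' : (1 : ℝ) ≤ N := by exact_mod_cast hN
  refine ⟨fun _ => le_refl _, fun _ => ⟨?_, fun _ => by norm_num, by norm_num⟩, ?_, ?_, ?_⟩
  · unfold Wt
    simp only [Finset.sum_const_zero]
    linarith
  · intro h
    omega
  · intro h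
    omega
  · intro h
    omega

theorem pour_le {y : VV N n → ℝ} (hy : IsPour y) (v : VV N n) : y v ≤ 1 := by
  rw [← hy.2]
  exact Finset.single_le_sum (fun v _ => hy.1 v) (Finset.mem_univ v)

theorem Wt_pour {y : VV N n → ℝ} (hy : IsPour y) : Wt y ≤ 1 := by
  have h := hy.2
  rw [Fintype.sum_option] at h
  have := hy.1 none
  unfold Wt
  linarith

theorem Wt_add (c y : VV N n → ℝ) : Wt (c + y) = Wt c + Wt y := by
  unfold Wt
  rw [← Finset.sum_add_distrib]
  rfl

theorem inv_step (hN : 0 < N) (hn : r * (4 * N) ^ 2 < n) (t : ℕ) (c y : VV N n → ℝ)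
    (hc : Inv r (t % 4) c) (hy : IsPour y) :
    Inv r ((t + 1) % 4) (emptied (c + y) (rule r hN t (c + y))) ∧ ∀ v, c v + y v ≤ 6 := by
  have hN' : (1 : ℝ) ≤ N := by exact_mod_cast hN
  have hx0 : ∀ v, 0 ≤ (c + y) v := fun v => add_nonneg (hc.nn v) (hy.1 v)
  have hWx : Wt (c + y) ≤ Wt c + 1 := by
    rw [Wt_add]
    have := Wt_pour hy
    linarith
  have hyv : ∀ v, y v ≤ 1 := fun v => pour_le hy v
  have hlt : t % 4 < 4 := Nat.mod_lt _ (by norm_num)
  have hcase : t % 4 = 0 ∨ t % 4 = 1 ∨ t % 4 = 2 ∨ t % 4 = 3 := by omega
  rcases hcase with h | h | h | h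
  · -- cleaning
    obtain ⟨hW, hs, hnone⟩ := hc.i0 h
    have h' : (t + 1) % 4 = 1 := by omega
    rw [h']
    have hr : rule r hN t (c + y) = copyS (exists_best hN (c + y)).choose := by
      unfold rule
      rw [if_pos h]
    rw [hr]
    refine ⟨⟨emptied_nonneg _ hx0 _, fun e => by omega, fun _ => ⟨?_, ?_, ?_⟩, fun e => by omega,
      fun e => by omega⟩, ?_⟩
    · rw [Wt_copy]
      have hb := (exists_best hN (c + y)).choose_spec
      set i := (exists_best hN (c + y)).choose
      have h1 : Wt (c + y) ≤ N * part (c + y) i := by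
        rw [Wt_eq]
        have := Finset.sum_le_card_nsmul Finset.univ (fun j => part (c + y) j) _ (fun j _ => hb j)
        rwa [Finset.card_univ, Fintype.card_fin, nsmul_eq_mul] at this
      have h2 : Wt (c + y) ≤ 4 * N := by linarith
      by_contra hcon
      push Not at hcon
      -- W - p > 4N - 4, W ≤ 4N, W ≤ N p
      have h3 : part (c + y) i < 4 := by linarith
      nlinarith
    · intro a
      refine (emptied_le _ hx0 _ _).trans ?_
      have := hs a
      have := hyv (some a)
      show c (some a) + y (some a) ≤ 3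
      linarith
    · refine (emptied_le _ hx0 _ _).trans ?_
      have := hyv none
      show c none + y none ≤ 3
      linarith
    · intro v
      cases v with
      | none =>
        have := hyv none
        linarith
      | some a =>
        have := hs a
        have := hyv (some a)
        linarith
  · obtain ⟨hW, hs, hnone⟩ := hc.i1 h
    have h' : (t + 1) % 4 = 2 := by omega
    rw [h']
    have hr : rule r hN t (c + y) = {none} := by
      unfold rule
      rw [if_neg (by omega), if_pos h]
    rw [hr]
    refine ⟨⟨emptied_nonneg _ hx0 _, fun e => by omega, fun e => by omega, fun _ => ⟨?_, ?_, ?_⟩,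
      fun e => by omega⟩, ?_⟩
    · have := Wt_emptied_le (c + y) hx0 {none}
      linarith
    · intro a
      refine (emptied_le _ hx0 _ _).trans ?_
      have := hs a
      have := hyv (some a)
      show c (some a) + y (some a) ≤ 4
      linarith
    · unfold emptied
      rw [if_pos (Finset.mem_singleton_self _)]
    · intro v
      cases v with
      | none =>
        have := hyv none
        linarith
      | some a =>
        have := hs a
        have := hyv (some a)
        linarith
  · obtain ⟨hW, hs, hnone⟩ := hc.i2 h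
    have h' : (t + 1) % 4 = 3 := by omega
    rw [h']
    -- the coordinate
    have hex : ∃ l, Split (c + y) r l := by
      have hS : (univ.filter (fun a : Fin N × Cube n => 1 ≤ (c + y) (some a))).card ≤ 4 * N := by
        have h1 : ((univ.filter (fun a : Fin N × Cube n => 1 ≤ (c + y) (some a))).card : ℝ) ≤
            Wt (c + y) := by
          unfold Wt
          calc ((univ.filter (fun a : Fin N × Cube n => 1 ≤ (c + y) (some a))).card : ℝ)
              = ∑ a ∈ univ.filter (fun a : Fin N × Cube n => 1 ≤ (c + y) (some a)), (1 : ℝ) := by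
                simp
            _ ≤ ∑ a ∈ univ.filter (fun a : Fin N × Cube n => 1 ≤ (c + y) (some a)),
                (c + y) (some a) := by
                apply Finset.sum_le_sum
                intro a ha
                rw [Finset.mem_filter] at ha
                exact ha.2
            _ ≤ ∑ a, (c + y) (some a) :=
                Finset.sum_le_univ_sum_of_nonneg (fun a => hx0 _)
        have h2 : ((univ.filter (fun a : Fin N × Cube n => 1 ≤ (c + y) (some a))).card : ℝ) ≤
            ((4 * N : ℕ) : ℝ) := by
          push_cast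
          linarith
        exact_mod_cast h2
      obtain ⟨l, hl⟩ := split_coord hn _ hS
      refine ⟨l, ?_⟩
      intro a b ha hb hab
      exact hl a (Finset.mem_filter.mpr ⟨Finset.mem_univ _, ha⟩) b
        (Finset.mem_filter.mpr ⟨Finset.mem_univ _, hb⟩) hab
    have hr : rule r hN t (c + y) = half (c + y) hex.choose := by
      unfold rule
      rw [if_neg (by omega), if_neg (by omega), if_pos h, dif_pos hex]
    rw [hr]
    have hsp := hex.choose_spec
    set l := hex.choose
    refine ⟨⟨emptied_nonneg _ hx0 _, fun e => by omega, fun e => by omega, fun e => by omega,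
      fun _ => ⟨?_, ?_, ?_, ?_⟩⟩, ?_⟩
    · have := Wt_emptied_le (c + y) hx0 (half (c + y) l)
      linarith
    · intro a
      refine (emptied_le _ hx0 _ _).trans ?_
      have := hs a
      have := hyv (some a)
      show c (some a) + y (some a) ≤ 5
      linarith
    · refine (emptied_le _ hx0 _ _).trans ?_
      have := hyv none
      show c none + y none ≤ 1
      linarith
    · have key : ∀ a : Fin N × Cube n, 1 ≤ emptied (c + y) (half (c + y) l) (some a) →
          1 ≤ (c + y) (some a) ∧ a.2 l = false := by
        intro a ha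
        have h1 := emptied_le (c + y) hx0 (half (c + y) l) (some a)
        refine ⟨by linarith, ?_⟩
        by_contra hne
        have hne' : a.2 l = true := by simpa using hne
        have hmem : (some a : VV N n) ∈ half (c + y) l := by
          unfold half
          rw [Finset.mem_filter]
          exact ⟨Finset.mem_univ _, a, rfl, by linarith, hne'⟩
        unfold emptied at ha
        rw [if_pos hmem] at ha
        norm_num at ha
      intro a b ha hb hab
      obtain ⟨ha1, ha2⟩ := key a ha
      obtain ⟨hb1, hb2⟩ := key b hb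
      exact hsp a b ha1 hb1 hab (by rw [ha2, hb2])
    · intro v
      cases v with
      | none =>
        have := hyv none
        linarith
      | some a =>
        have := hs a
        have := hyv (some a)
        linarith
  · obtain ⟨hW, hs, hnone, hind⟩ := hc.i3 h
    have h' : (t + 1) % 4 = 0 := by omega
    rw [h']
    have hI : Indep (GG N n r) (heavy2 (c + y)) := by
      intro u hu v hv
      unfold heavy2 at hu hv
      rw [Finset.mem_filter] at hu hv
      obtain ⟨_, a, rfl, ha⟩ := hu
      obtain ⟨_, b, rfl, hb⟩ := hv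
      apply hind a b
      · have h1 := hyv (some a)
        have h2 : (c + y) (some a) = c (some a) + y (some a) := rfl
        linarith
      · have h1 := hyv (some b)
        have h2 : (c + y) (some b) = c (some b) + y (some b) := rfl
        linarith
    have hr : rule r hN t (c + y) = heavy2 (c + y) := by
      unfold rule
      rw [if_neg (by omega), if_neg (by omega), if_neg (by omega), if_pos hI]
    rw [hr]
    refine ⟨⟨emptied_nonneg _ hx0 _, fun _ => ⟨?_, ?_, ?_⟩, fun e => by omega, fun e => by omega,
      fun e => by omega⟩, ?_⟩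
    · have := Wt_emptied_le (c + y) hx0 (heavy2 (c + y))
      linarith
    · intro a
      unfold emptied
      split_ifs with hm
      · norm_num
      · by_contra hcon
        push Not at hcon
        apply hm
        unfold heavy2
        rw [Finset.mem_filter]
        exact ⟨Finset.mem_univ _, a, rfl, hcon.le⟩
    · refine (emptied_le _ hx0 _ _).trans ?_
      have := hyv none
      show c none + y none ≤ 2
      linarith
    · intro v
      cases v with
      | none =>
        have := hyv none
        linarith
      | some a =>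
        have := hs a
        have := hyv (some a)
        linarith

/-- Cinderella wins with buckets of capacity `6`. -/
theorem canWin_six (hN : 0 < N) (hn : r * (4 * N) ^ 2 < n) : CanWin (GG N n r) 6 := by
  apply canWin_of_rule (GG N n r) 6 (rule r hN) (fun t x => rule_indep hN t x)
  intro y hy
  have key : ∀ t, Inv r (t % 4) (cF (rule r hN) y t) := by
    intro t
    induction t with
    | zero => exact inv_zero hN
    | succ t ih => exact (inv_step hN hn t _ (y t) ih (hy t)).1
  intro t v
  exact (inv_step hN hn t _ (y t) (key t) (hy t)).2 v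

end Pool.Agent.Q107.BK
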